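import Mathlib

set_option autoImplicit false

namespace Pool.Agent.H.MP_1f345d_an

open Set

noncomputable def cant (e : ℕ → Bool) : ℝ :=
  ∑' m : ℕ, (if e m then (3/4 : ℝ) * (1/4 : ℝ) ^ m else 0)

lemma geo : Summable fun m : ℕ => (3/4 : ℝ) * (1/4 : ℝ) ^ m :=
  (summable_geometric_of_lt_one (by norm_num) (by norm_num)).mul_left _

lemma term_bd (e : ℕ → Bool) (m : ℕ) :
    0 ≤ (if e m then (3/4 : ℝ) * (1/4 : ℝ) ^ m else 0) ∧
    (if e m then (3/4 : ℝ) * (1/4 : ℝ) ^ m else 0) ≤ (3/4 : ℝ) * (1/4 : ℝ) ^ m := by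
  split_ifs
  · exact ⟨by positivity, le_rfl⟩
  · exact ⟨le_rfl, by positivity⟩

lemma summ (e : ℕ → Bool) : Summable fun m => (if e m then (3/4 : ℝ) * (1/4 : ℝ) ^ m else 0) :=
  Summable.of_nonneg_of_le (fun m => (term_bd e m).1) (fun m => (term_bd e m).2) geo

lemma cant_nonneg (e : ℕ → Bool) : 0 ≤ cant e := tsum_nonneg fun m => (term_bd e m).1

lemma cant_le (e : ℕ → Bool) : cant e ≤ 1 := by
  have h := (summ e).tsum_le_tsum (fun m => (term_bd e m).2) geo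
  rw [tsum_mul_left, tsum_geometric_of_lt_one (by norm_num) (by norm_num)] at h
  norm_num at h
  exact h

lemma cant_rec (e : ℕ → Bool) :
    cant e = (if e 0 then (3/4 : ℝ) else 0) + 1 / 4 * cant (fun m => e (m + 1)) := by
  unfold cant
  rw [(summ e).tsum_eq_zero_add, ← tsum_mul_left]
  congr 1
  · simp
  · refine tsum_congr fun m => ?_
    split_ifs
    · rw [pow_succ]; ring
    · simp

def D (c : Fin 2 → ℝ) (s : ℝ) : Set (Fin 2 → ℝ) := {l | ∀ i, ∃ e, l i = c i + s * cant e}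

lemma D_bd {c : Fin 2 → ℝ} {s : ℝ} (hs : 0 ≤ s) {l : Fin 2 → ℝ} (hl : l ∈ D c s) (i : Fin 2) :
    c i ≤ l i ∧ l i ≤ c i + s := by
  obtain ⟨e, he⟩ := hl i
  have h1 := cant_nonneg e
  have h2 := cant_le e
  rw [he]
  constructor <;> nlinarith

noncomputable def ch (c : Fin 2 → ℝ) (s : ℝ) (j : ℕ) : Fin 2 → ℝ :=
  fun i => c i + (if j.testBit i then 3 / 4 * s else 0)

lemma ch_bd (c : Fin 2 → ℝ) {s : ℝ} (hs : 0 ≤ s) (j : ℕ) (i : Fin 2) :
    c i ≤ ch c s j i ∧ ch c s j i + s / 4 ≤ c i + s := by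
  unfold ch
  split_ifs <;> constructor <;> linarith

lemma D_sub {c : Fin 2 → ℝ} {s : ℝ} {l : Fin 2 → ℝ} (hl : l ∈ D c s) :
    ∃ j < 4, l ∈ D (ch c s j) (s / 4) := by
  choose e he using hl
  have : ∀ b0 b1 : Bool, ∃ j < 4, j.testBit 0 = b0 ∧ j.testBit 1 = b1 := by decide
  obtain ⟨j, hj, h0, h1⟩ := this (e 0 0) (e 1 0)
  refine ⟨j, hj, fun i => ⟨fun m => e i (m + 1), ?_⟩⟩
  have hb : j.testBit i = e i 0 := by
    fin_cases i
    · exact h0
    · exact h1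
  rw [he i, cant_rec (e i), ch, hb]
  split_ifs <;> ring

lemma subdiv (J : ℕ) (c : Fin 2 → ℝ) {s : ℝ} (hs : 0 ≤ s) : ∃ cc : ℕ → Fin 2 → ℝ,
    (∀ j i, c i ≤ cc j i ∧ cc j i + s / 4 ^ J ≤ c i + s) ∧
    ∀ l ∈ D c s, ∃ j < 4 ^ J, l ∈ D (cc j) (s / 4 ^ J) := by
  induction J with
  | zero => exact ⟨fun _ => c, fun j i => by simp, fun l hl => ⟨0, by simp, by simpa using hl⟩⟩
  | succ J ih =>
    obtain ⟨cc, h1, h2⟩ := ih
    have hs' : 0 ≤ s / 4 ^ J := by positivity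
    have e : s / 4 ^ (J + 1) = s / 4 ^ J / 4 := by rw [pow_succ, div_div]
    refine ⟨fun j => ch (cc (j / 4)) (s / 4 ^ J) (j % 4), fun j i => ?_, fun l hl => ?_⟩
    · have := ch_bd (cc (j / 4)) hs' (j % 4) i
      have h := h1 (j / 4) i
      rw [e]
      constructor <;> linarith [this.1, this.2, h.1, h.2]
    · obtain ⟨j, hj, hl⟩ := h2 l hl
      obtain ⟨r, hr, hl⟩ := D_sub hl
      refine ⟨4 * j + r, by rw [pow_succ]; omega, ?_⟩
      have e1 : (4 * j + r) / 4 = j := by omega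
      have e2 : (4 * j + r) % 4 = r := by omega
      simp only [e1, e2, e]
      exact hl

def Good (L τ : ℝ) (K : Set (Fin 2 → ℝ)) (c : Fin 2 → ℝ) (s t1 t2 : ℝ) : Prop :=
  ∃ (S : Set ℕ) (W : ℕ → Fin 2 → ℝ), (∀ n ∈ S, t1 ≤ n ∧ (n : ℝ) ≤ t2) ∧
    (∀ n ∈ S, ∀ i, c i * n ≤ W n i ∧ W n i ≤ (c i + s) * n) ∧
    (∀ n ∈ S, ∀ n' ∈ S, n < n' → ∀ i, W n i + L ≤ W n' i) ∧
    ∀ l ∈ K, ∃ n ∈ S, ∀ i, |n * l i - W n i| ≤ τ

lemma Good.mono {L τ : ℝ} {K K' : Set (Fin 2 → ℝ)} {c c' : Fin 2 → ℝ} {s s' t1 t2 t1' t2' : ℝ}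
    (h : Good L τ K' c' s' t1' t2') (hK : K ⊆ K') (hc : ∀ i, c i ≤ c' i ∧ c' i + s' ≤ c i + s)
    (h1 : t1 ≤ t1') (h2 : t2' ≤ t2) : Good L τ K c s t1 t2 := by
  obtain ⟨S, W, a1, a2, a3, a4⟩ := h
  refine ⟨S, W, fun n hn => ⟨h1.trans (a1 n hn).1, (a1 n hn).2.trans h2⟩, fun n hn i => ?_, a3,
    fun l hl => a4 l (hK hl)⟩
  have hn0 : (0 : ℝ) ≤ n := by positivity
  exact ⟨(mul_le_mul_of_nonneg_right (hc i).1 hn0).trans (a2 n hn i).1,
    (a2 n hn i).2.trans (mul_le_mul_of_nonneg_right (hc i).2 hn0)⟩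

lemma Good.merge {a G τ : ℝ} (ha : 0 < a) (hG : 0 < G) {K K' : Set (Fin 2 → ℝ)}
    {c : Fin 2 → ℝ} {s t1 t2 t3 t4 : ℝ} (hc : ∀ i, a ≤ c i) (hs : 0 ≤ s) (h0 : 0 ≤ t2)
    (h : Good (a * G) τ K c s t1 t2) (h' : Good (a * G) τ K' c s t3 t4)
    (h13 : t1 ≤ t3) (h24 : t2 ≤ t4) (hgap : t2 * (1 + s / a) + G ≤ t3) :
    Good (a * G) τ (K ∪ K') c s t1 t4 := by
  classical
  obtain ⟨S, W, a1, a2, a3, a4⟩ := h
  obtain ⟨S', W', b1, b2, b3, b4⟩ := h'
  have hsa : 0 ≤ s / a := by positivity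
  have h23 : t2 < t3 := by nlinarith
  have hdis : ∀ n ∈ S', n ∉ S := fun n hn' hn => by linarith [(a1 n hn).2, (b1 n hn').1]
  refine ⟨S ∪ S', fun n => if n ∈ S then W n else W' n, ?_, ?_, ?_, ?_⟩
  · rintro n (hn | hn)
    · exact ⟨(a1 n hn).1, (a1 n hn).2.trans h24⟩
    · exact ⟨h13.trans (b1 n hn).1, (b1 n hn).2⟩
  · rintro n (hn | hn) i
    · simp only [if_pos hn]; exact a2 n hn i
    · simp only [if_neg (hdis n hn)]; exact b2 n hn i
  · rintro n (hn | hn) n' (hn' | hn') hlt i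
    · simp only [if_pos hn, if_pos hn']; exact a3 n hn n' hn' hlt i
    · simp only [if_pos hn, if_neg (hdis n' hn')]
      have e1 := (a2 n hn i).2
      have e2 := (b2 n' hn' i).1
      have e3 := (a1 n hn).2
      have e4 := (b1 n' hn').1
      have hci := hc i
      have e5 : (c i + s) * n ≤ (c i + s) * t2 := mul_le_mul_of_nonneg_left e3 (by linarith)
      have e6 : c i * (t2 * (1 + s / a) + G) ≤ c i * n' :=
        mul_le_mul_of_nonneg_left (hgap.trans e4) (by linarith)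
      have e7 : s ≤ c i * (s / a) := by
        have : a * (s / a) = s := by field_simp
        nlinarith
      have e8 : s * t2 ≤ c i * (s / a) * t2 := mul_le_mul_of_nonneg_right e7 h0
      have e9 : a * G ≤ c i * G := mul_le_mul_of_nonneg_right hci hG.le
      nlinarith
    · exfalso
      have : (n : ℝ) < n' := by exact_mod_cast hlt
      linarith [(a1 n' hn').2, (b1 n hn).1]
    · simp only [if_neg (hdis n hn), if_neg (hdis n' hn')]; exact b3 n hn n' hn' hlt i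
  · rintro l (hl | hl)
    · obtain ⟨n, hn, h⟩ := a4 l hl
      exact ⟨n, Or.inl hn, by simpa only [if_pos hn] using h⟩
    · obtain ⟨n, hn, h⟩ := b4 l hl
      exact ⟨n, Or.inr hn, by simpa only [if_neg (hdis n hn)] using h⟩

lemma Good.seq {a G τ : ℝ} (ha : 0 < a) (hG : 0 < G) (K : ℕ → Set (Fin 2 → ℝ))
    {c : Fin 2 → ℝ} {s : ℝ} (t e : ℕ → ℝ) (hc : ∀ i, a ≤ c i) (hs : 0 ≤ s) (h0 : 0 ≤ t 0)
    (hte : ∀ j, t j ≤ e j) (hgap : ∀ j, e j * (1 + s / a) + G ≤ t (j + 1)) (m : ℕ)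
    (h : ∀ j ≤ m, Good (a * G) τ (K j) c s (t j) (e j)) :
    Good (a * G) τ {l | ∃ j ≤ m, l ∈ K j} c s (t 0) (e m) := by
  have hsa : 0 ≤ s / a := by positivity
  have hmono : ∀ j, t 0 ≤ t j := by
    intro j
    induction j with
    | zero => exact le_rfl
    | succ j ih => nlinarith [hte j, hgap j]
  induction m with
  | zero =>
    refine (h 0 le_rfl).mono ?_ (fun i => ⟨le_rfl, le_rfl⟩) le_rfl le_rfl
    rintro l ⟨j, hj, hl⟩
    obtain rfl : j = 0 := by omega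
    exact hl
  | succ m ih =>
    have hem : 0 ≤ e m := h0.trans ((hmono m).trans (hte m))
    have := (ih fun j hj => h j (by omega)).merge ha hG hc hs hem (h (m + 1) le_rfl)
      (hmono _) (by nlinarith [hte (m + 1), hgap m]) (hgap m)
    refine this.mono ?_ (fun i => ⟨le_rfl, le_rfl⟩) le_rfl le_rfl
    rintro l ⟨j, hj, hl⟩
    rcases Nat.lt_or_ge j (m + 1) with h1 | h1
    · exact Or.inl ⟨j, by omega, hl⟩
    · obtain rfl : j = m + 1 := by omega
      exact Or.inr hl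

lemma lemA {a G τ : ℝ} (ha : 0 < a) (hG : 0 < G) (d : ℕ) : ∀ (c : Fin 2 → ℝ) (s t Z : ℝ),
    (∀ i, a ≤ c i) → 0 ≤ s → 0 ≤ t →
    (t + (4 ^ d * (1 + G) - G)) * Real.exp (3 * s * d / a) ≤ Z → s / 4 ^ d * Z ≤ τ →
    Good (a * G) τ (D c s) c s t ((t + (4 ^ d * (1 + G) - G)) * Real.exp (3 * s * d / a)) := by
  induction d with
  | zero =>
    intro c s t Z hc hs ht hZ hτ
    simp only [pow_zero, one_mul, add_sub_cancel_right, Nat.cast_zero, mul_zero, zero_div,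
      Real.exp_zero, mul_one, div_one] at hZ hτ ⊢
    have h1 : t ≤ (⌈t⌉₊ : ℝ) := Nat.le_ceil t
    have h2 : (⌈t⌉₊ : ℝ) ≤ t + 1 := (Nat.ceil_lt_add_one ht).le
    have h3 : (0 : ℝ) ≤ (⌈t⌉₊ : ℝ) := by positivity
    refine ⟨{⌈t⌉₊}, fun n i => c i * n, ?_, ?_, ?_, ?_⟩
    · rintro n rfl; exact ⟨h1, h2⟩
    · rintro n rfl i; exact ⟨le_rfl, by nlinarith⟩
    · rintro n rfl n' rfl hlt; exact absurd hlt (lt_irrefl _)
    · intro l hl
      refine ⟨_, rfl, fun i => ?_⟩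
      have := D_bd hs hl i
      rw [abs_of_nonneg (by nlinarith [this.1])]
      nlinarith [this.2]
  | succ d ih =>
    intro c s t Z hc hs ht hZ hτ
    set B : ℝ := 4 ^ d * (1 + G) - G with hB
    have h4 : (1 : ℝ) ≤ 4 ^ d := one_le_pow₀ (by norm_num)
    have hB1 : 1 ≤ B := by rw [hB]; nlinarith
    set q : ℝ := Real.exp (3 * (s / 4) * d / a) with hq
    set r : ℝ := Real.exp (s / a) with hr
    have hq1 : 1 ≤ q := Real.one_le_exp (by positivity)
    have hr1 : 1 + s / a ≤ r := by rw [hr, add_comm]; exact Real.add_one_le_exp _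
    have hsa : 0 ≤ s / a := by positivity
    have hr2 : 1 ≤ r := by linarith
    have hE : (t + (4 ^ (d + 1) * (1 + G) - G)) * Real.exp (3 * s * ((d + 1 : ℕ) : ℝ) / a) =
        (t + 3 * (B + G) + B) * ((q * r) ^ 3 * q) := by
      have e1 : Real.exp (3 * s * ((d + 1 : ℕ) : ℝ) / a) = (q * r) ^ 3 * q := by
        rw [hq, hr, ← Real.exp_add, ← Real.exp_nat_mul, ← Real.exp_add]
        congr 1; push_cast; field_simp; ring
      rw [e1, hB, pow_succ]; ring
    rw [hE] at hZ ⊢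
    have hQ : ∀ j : ℕ, 1 ≤ (q * r) ^ j := fun j => one_le_pow₀ (by nlinarith)
    have hle : ∀ j : ℕ, ((t + j * (B + G)) * (q * r) ^ j + B) * q ≤
        (t + j * (B + G) + B) * ((q * r) ^ j * q) := by
      intro j
      have h1 : B * 1 ≤ B * (q * r) ^ j := mul_le_mul_of_nonneg_left (hQ j) (by linarith)
      have : (t + j * (B + G)) * (q * r) ^ j + B ≤ (t + j * (B + G) + B) * (q * r) ^ j := by
        linarith
      calc _ ≤ (t + j * (B + G) + B) * (q * r) ^ j * q :=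
            mul_le_mul_of_nonneg_right this (by linarith)
        _ = _ := by ring
    have ht' : ∀ j : ℕ, 0 ≤ t + j * (B + G) := fun j => by positivity
    have key := Good.seq (τ := τ) ha hG (fun j => D (ch c s j) (s / 4)) (c := c) (s := s)
      (fun j => (t + j * (B + G)) * (q * r) ^ j)
      (fun j => (t + j * (B + G) + B) * ((q * r) ^ j * q)) hc hs (by simpa using ht) ?_ ?_ 3 ?_
    · refine key.mono ?_ (fun i => ⟨le_rfl, le_rfl⟩) (by simp) (by norm_num)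
      intro l hl
      obtain ⟨j, hj, hl⟩ := D_sub hl
      exact ⟨j, by omega, hl⟩
    · intro j
      refine le_trans ?_ (hle j)
      have h1 : 0 ≤ (t + j * (B + G)) * (q * r) ^ j := mul_nonneg (ht' j) (by linarith [hQ j])
      nlinarith
    · intro j
      have h1 : 0 ≤ (t + j * (B + G) + B) * ((q * r) ^ j * q) :=
        mul_nonneg (by linarith [ht' j]) (mul_nonneg (by linarith [hQ j]) (by linarith))
      have h2 := mul_le_mul_of_nonneg_left hr1 h1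
      have h3 : G * 1 ≤ G * (q * r) ^ (j + 1) := mul_le_mul_of_nonneg_left (hQ _) hG.le
      have h5 : (t + ((j + 1 : ℕ) : ℝ) * (B + G)) * (q * r) ^ (j + 1) =
          (t + j * (B + G) + B) * ((q * r) ^ j * q) * r + G * (q * r) ^ (j + 1) := by
        push_cast; rw [pow_succ]; ring
      rw [h5]; linarith
    · intro j hj
      have hj' : (j : ℝ) ≤ 3 := by exact_mod_cast hj
      have hZ' : (t + j * (B + G) + B) * ((q * r) ^ j * q) ≤ Z := by
        refine le_trans ?_ hZ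
        refine mul_le_mul (by nlinarith) ?_ (mul_nonneg (by linarith [hQ j]) (by linarith))
          (by nlinarith)
        exact mul_le_mul_of_nonneg_right (pow_le_pow_right₀ (by nlinarith) hj) (by linarith)
      have := ih (ch c s j) (s / 4) ((t + j * (B + G)) * (q * r) ^ j) Z
        (fun i => (hc i).trans (ch_bd c hs j i).1) (by positivity)
        (mul_nonneg (ht' j) (by linarith [hQ j])) ((hle j).trans hZ')
        (by rw [div_div, ← pow_succ']; exact hτ)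
      exact this.mono subset_rfl (ch_bd c hs j) le_rfl (hle j)

lemma lemB {a L τ h : ℝ} (ha : 0 < a) (hL : 0 < L) (hτ : 0 < τ) (hh : 0 ≤ h) (hha : h ≤ a / 20)
    {c : Fin 2 → ℝ} (hc : ∀ i, a ≤ c i) (T0 : ℕ) :
    ∃ t2, Good L τ (D c h) c h T0 t2 := by
  set G : ℝ := L / a with hGdef
  have hG : 0 < G := by positivity
  have hLG : L = a * G := by rw [hGdef]; field_simp
  obtain ⟨J, hJ⟩ : ∃ J : ℕ, h / 4 ^ J ≤ min (τ / (8 * (1 + G))) (a / (20 * (T0 + 1))) := by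
    have hm : 0 < min (τ / (8 * (1 + G))) (a / (20 * (T0 + 1))) := by positivity
    obtain ⟨J, hJ⟩ := pow_unbounded_of_one_lt
      (h / min (τ / (8 * (1 + G))) (a / (20 * (T0 + 1)))) (show (1 : ℝ) < 4 by norm_num)
    refine ⟨J, ?_⟩
    rw [div_lt_iff₀ hm] at hJ
    rw [div_le_iff₀ (by positivity)]
    linarith
  set s : ℝ := h / 4 ^ J with hsdef
  have hs : 0 ≤ s := by positivity
  have hs1 : s * (8 * (1 + G)) ≤ τ := by
    rw [← le_div_iff₀ (by positivity)]; exact hJ.trans (min_le_left _ _)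
  have hs2 : s * (20 * (T0 + 1)) ≤ a := by
    rw [← le_div_iff₀ (by positivity)]; exact hJ.trans (min_le_right _ _)
  have hs3 : s * 4 ^ J = h := by rw [hsdef]; field_simp
  obtain ⟨cc, h1, h2⟩ := subdiv J c hh
  set T : ℝ := 4 ^ (T0 + 1) * (1 + G) with hT
  have h4 : ∀ j : ℕ, (j : ℝ) ≤ 4 ^ j := fun j => by
    have : j < 4 ^ j := Nat.lt_pow_self (by norm_num)
    exact_mod_cast this.le
  have h4' : ∀ j : ℕ, (1 : ℝ) ≤ 4 ^ j := fun j => one_le_pow₀ (by norm_num)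
  have hTG : G ≤ T := by rw [hT]; nlinarith [h4' (T0 + 1)]
  have hT0 : (T0 : ℝ) ≤ T := by
    have := h4 (T0 + 1)
    push_cast at this
    rw [hT]; nlinarith [h4' (T0 + 1)]
  have hha' : h / a ≤ 1 / 20 := by rw [div_le_iff₀ ha]; linarith
  have key := Good.seq (τ := τ) ha hG (fun j => D (cc j) s) (c := c) (s := h)
    (fun j => T * 4 ^ j) (fun j => 2 * (T * 4 ^ j)) hc hh (by positivity) ?_ ?_ (4 ^ J) ?_
  · refine ⟨2 * (T * 4 ^ 4 ^ J), ?_⟩
    rw [hLG]
    refine key.mono ?_ (fun i => ⟨le_rfl, le_rfl⟩) (by simpa using hT0) le_rfl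
    intro l hl
    obtain ⟨j, hj, hl⟩ := h2 l hl
    exact ⟨j, hj.le, hl⟩
  · intro j
    have : 0 ≤ T * 4 ^ j := by positivity
    linarith
  · intro j
    have e1 : 0 ≤ T * 4 ^ j := by positivity
    have e2 : T * 1 ≤ T * 4 ^ j := mul_le_mul_of_nonneg_left (h4' j) (by positivity)
    have e3 : 2 * (T * 4 ^ j) * (1 + h / a) ≤ 2 * (T * 4 ^ j) * (1 + 1 / 20) :=
      mul_le_mul_of_nonneg_left (by linarith) (by positivity)
    rw [pow_succ]
    nlinarith
  · intro j hj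
    have hj' : (j : ℝ) ≤ 4 ^ J := by exact_mod_cast hj
    have e0 : 0 ≤ T * 4 ^ j := by positivity
    have e1 : Real.exp (3 * s * ((j + T0 : ℕ) : ℝ) / a) ≤ 3 / 2 := by
      have f1 : 3 * s * ((j + T0 : ℕ) : ℝ) / a ≤ 3 / 10 := by
        rw [div_le_iff₀ ha]
        push_cast
        nlinarith [mul_le_mul_of_nonneg_left hj' hs]
      refine (Real.exp_le_exp.2 f1).trans ?_
      have f2 := Real.add_one_le_exp (-(3 / 10 : ℝ))
      have f3 : Real.exp (3 / 10) * Real.exp (-(3 / 10 : ℝ)) = 1 := by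
        rw [← Real.exp_add]; simp
      nlinarith [Real.exp_pos (3 / 10 : ℝ)]
    have e2 : (4 : ℝ) ^ (j + T0) * (1 + G) = T * 4 ^ j / 4 := by
      rw [hT, pow_add, pow_succ]; ring
    have e3 : (T * 4 ^ j + (4 ^ (j + T0) * (1 + G) - G)) *
        Real.exp (3 * s * ((j + T0 : ℕ) : ℝ) / a) ≤ 2 * (T * 4 ^ j) := by
      rw [e2]
      have f1 : 0 ≤ T * 4 ^ j + (T * 4 ^ j / 4 - G) := by
        nlinarith [mul_le_mul_of_nonneg_left (h4' j) (show 0 ≤ T by positivity)]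
      nlinarith [mul_le_mul_of_nonneg_left e1 f1]
    have := lemA (τ := τ) ha hG (j + T0) (cc j) s (T * 4 ^ j) (2 * (T * 4 ^ j))
      (fun i => (hc i).trans (h1 j i).1) hs e0 e3 ?_
    · exact this.mono subset_rfl (h1 j) le_rfl e3
    · have : s / 4 ^ (j + T0) * (2 * (T * 4 ^ j)) = s * (8 * (1 + G)) := by
        rw [hT, pow_add, pow_succ]; field_simp; ring
      rw [this]; exact hs1

end Pool.Agent.H.MP_1f345d_an
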